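import Pool.Agent.H811R2.T.K

/-! # A focus plus a homogeneous polynomial of even degree: boundedly many limit cycles on average,
uniformly in the degree

For the systems `z' = (μ + i) z + F(z)` in the complex plane, where `F` is a homogeneous polynomial
(in the real coordinates of `z`, that is in `z` and its conjugate) of even degree `n`, the mean over
`|μ| ≤ M` of the number of closed orbits which surround the origin is at most an absolute constant
`K`, which depends neither on the degree `n` nor on the coefficients nor on `M`. -/

open Set MeasureTheory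
open scoped ENNReal

namespace Pool.Agent.Results.MP_95e7ec_an.EvenHomogeneousMean

/-- the planar polynomial vector field `z' = (μ + i) z + ∑_{j ≤ n} c j z ^ j (conj z) ^ (n - j)`: a
linear focus (a centre for `μ = 0`) plus an arbitrary homogeneous polynomial of degree `n` -/
noncomputable def vectorField (n : ℕ) (c : ℕ → ℂ) (μ : ℝ) (z : ℂ) : ℂ :=
  ((μ : ℂ) + Complex.I) * z +
    ∑ j ∈ Finset.range (n + 1), c j * (z ^ j * (starRingEnd ℂ) z ^ (n - j))

/-- the closed orbits of `z' = V z` (ranges of periodic solutions, limit cycles or not) which surround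
the origin: they do not pass through the origin, and the connected component of the origin in their
complement is bounded (this excludes constant solutions) -/
def around (V : ℂ → ℂ) : Set (Set ℂ) :=
  {C | (∃ γ : ℝ → ℂ, ∃ T : ℝ, 0 < T ∧ (∀ t, HasDerivAt γ (V (γ t)) t) ∧
      (∀ t, γ (t + T) = γ t) ∧ C = Set.range γ) ∧
    (0:ℂ) ∉ C ∧ Bornology.IsBounded (connectedComponentIn Cᶜ 0)}

/-- **A focus plus a homogeneous polynomial of even degree.** There is an absolute constant `K` such
that for every even `n ≥ 2`, all coefficients `c` and all `M ≥ 1` the number of closed orbits around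
the origin of `z' = (μ + i) z + ∑ c j z ^ j (conj z) ^ (n - j)` has, as a function of `μ ∈ [-M, M]`, a
measurable majorant with mean at most `K`. -/
theorem result :
    ∃ K : ℝ, ∀ (n : ℕ) (c : ℕ → ℂ), 2 ≤ n → Even n → ∀ M : ℝ, 1 ≤ M →
      ∃ g : ℝ → ℝ≥0∞, Measurable g ∧
        (∀ μ ∈ Icc (-M) M, (((around (vectorField n c μ)).encard : ℕ∞) : ℝ≥0∞) ≤ g μ) ∧
        ∫⁻ μ in Icc (-M) M, g μ ≤ ENNReal.ofReal (K * (2 * M)) := by
  obtain ⟨K, -, h⟩ := H811R2.Quad.even_mean
  exact ⟨K, fun n c hn he M hM => h n c hn he M hM⟩

end Pool.Agent.Results.MP_95e7ec_an.EvenHomogeneousMean
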